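import Pool.Agent.Y294.OS.Germ

/-!
# Gamma, digamma and Hurwitz zeta functions, and exponentials
-/

set_option autoImplicit false

namespace Pool.Agent.Y294.OS

open Filter Topology

/-- the Hurwitz zeta value `∑_{m ≥ 0} 1 / (m + z) ^ n` -/
noncomputable def hz (n : ℕ) (z : ℂ) : ℂ := ∑' m : ℕ, 1 / ((m : ℂ) + z) ^ n

theorem summable_hz (n : ℕ) (hn : 2 ≤ n) (z : ℂ) : Summable fun m : ℕ => 1 / ((m : ℂ) + z) ^ n := by
  have h1 : Summable fun m : ℕ => (2 : ℝ) ^ n * (1 / (m : ℝ) ^ n) :=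
    (Real.summable_one_div_nat_pow.2 (by omega)).mul_left _
  refine Summable.of_norm_bounded_eventually_nat h1 ?_
  filter_upwards [eventually_ge_atTop (⌈2 * ‖z‖⌉₊ + 1)] with m hm
  have h2 : 2 * ‖z‖ ≤ m := by
    have h3 := Nat.le_ceil (2 * ‖z‖)
    have h4 : ((⌈2 * ‖z‖⌉₊ + 1 : ℕ) : ℝ) ≤ m := by exact_mod_cast hm
    push_cast at h4
    linarith
  have hm0 : (0 : ℝ) < m := by
    have : 0 < m := by omega
    exact_mod_cast this
  have h5 : (m : ℝ) / 2 ≤ ‖(m : ℂ) + z‖ := by
    have h6 := norm_sub_norm_le (m : ℂ) (-z)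
    rw [norm_neg, sub_neg_eq_add, Complex.norm_natCast] at h6
    linarith
  rw [norm_div, norm_one, norm_pow]
  have h7 : ((m : ℝ) / 2) ^ n ≤ ‖(m : ℂ) + z‖ ^ n := pow_le_pow_left₀ (by positivity) h5 n
  calc 1 / ‖(m : ℂ) + z‖ ^ n ≤ 1 / ((m : ℝ) / 2) ^ n := one_div_le_one_div_of_le (by positivity) h7
    _ = 2 ^ n * (1 / (m : ℝ) ^ n) := by rw [div_pow]; field_simp

theorem hz_shift (n : ℕ) (hn : 2 ≤ n) (z : ℂ) : hz n (z + 1) = hz n z - 1 / z ^ n := by
  have h1 := (summable_hz n hn z).tsum_eq_zero_add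
  unfold hz
  rw [h1]
  push_cast
  rw [zero_add, add_sub_cancel_left]
  refine tsum_congr fun m => ?_
  congr 2
  ring

theorem hz_shift' (n : ℕ) (hn : 2 ≤ n) (z : ℂ) (N : ℕ) :
    hz n z = ∑ m ∈ Finset.range N, 1 / ((m : ℂ) + z) ^ n + hz n (z + N) := by
  induction N with
  | zero => simp
  | succ N ih =>
    rw [ih, Finset.sum_range_succ]
    have h1 := hz_shift n hn (z + N)
    have h2 : z + ((N + 1 : ℕ) : ℂ) = z + N + 1 := by push_cast; ring
    rw [h2, h1, add_comm (N : ℂ) z]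
    ring

theorem hz_an_right (n : ℕ) (hn : 2 ≤ n) : DifferentiableOn ℂ (hz n) {z : ℂ | 1 / 2 < z.re} := by
  have hu : Summable fun m : ℕ => 1 / ((m : ℝ) + 1 / 2) ^ n := by
    have h1 : Summable fun m : ℕ => (2 : ℝ) ^ n * (1 / (m : ℝ) ^ n) :=
      (Real.summable_one_div_nat_pow.2 (by omega)).mul_left _
    refine Summable.of_norm_bounded_eventually_nat h1 ?_
    filter_upwards [eventually_ge_atTop 1] with m hm
    have hm0 : (0 : ℝ) < m := by exact_mod_cast hm
    rw [Real.norm_of_nonneg (by positivity)]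
    calc 1 / ((m : ℝ) + 1 / 2) ^ n ≤ 1 / ((m : ℝ) / 2) ^ n :=
          one_div_le_one_div_of_le (by positivity) (pow_le_pow_left₀ (by positivity) (by linarith) n)
      _ = 2 ^ n * (1 / (m : ℝ) ^ n) := by rw [div_pow]; field_simp
  refine Complex.differentiableOn_tsum_of_summable_norm hu ?_ ?_ ?_
  · intro m z hz
    have h1 : (m : ℂ) + z ≠ 0 := by
      intro h2
      have h3 := congrArg Complex.re h2
      simp only [Complex.add_re, Complex.natCast_re, Complex.zero_re] at h3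
      have h4 : 1 / 2 < z.re := hz
      have h5 : (0 : ℝ) ≤ m := Nat.cast_nonneg m
      linarith
    refine DifferentiableAt.differentiableWithinAt ?_
    refine (differentiableAt_const _).div ?_ (pow_ne_zero _ h1)
    exact ((differentiableAt_const _).add differentiableAt_id).pow _
  · exact isOpen_lt continuous_const Complex.continuous_re
  · intro m z hz
    have h4 : 1 / 2 < z.re := hz
    rw [norm_div, norm_one, norm_pow]
    have h5 : (m : ℝ) + 1 / 2 ≤ ‖(m : ℂ) + z‖ := by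
      refine le_trans ?_ (Complex.re_le_norm _)
      simp only [Complex.add_re, Complex.natCast_re]
      linarith
    exact one_div_le_one_div_of_le (by positivity) (pow_le_pow_left₀ (by positivity) h5 n)

theorem hz_an (n : ℕ) (hn : 2 ≤ n) (z : ℂ) (hz0 : ∀ m : ℕ, z ≠ -m) : AnalyticAt ℂ (hz n) z := by
  obtain ⟨N, hN⟩ := exists_nat_gt (1 - z.re)
  have h1 : (hz n) = fun z => ∑ m ∈ Finset.range N, 1 / ((m : ℂ) + z) ^ n + hz n (z + N) := by
    funext z
    exact hz_shift' n hn z N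
  rw [h1]
  refine AnalyticAt.add ?_ ?_
  · refine Finset.analyticAt_fun_sum _ fun m _ => ?_
    refine analyticAt_const.div ?_ ?_
    · exact (analyticAt_const.add analyticAt_id).pow _
    · refine pow_ne_zero _ fun h2 => hz0 m ?_
      have h3 : (m : ℂ) + z = 0 := h2
      linear_combination h3
  · have h2 : AnalyticAt ℂ (hz n) (z + N) := by
      refine (hz_an_right n hn).analyticAt ?_
      refine (isOpen_lt continuous_const Complex.continuous_re).mem_nhds ?_
      show 1 / 2 < (z + N).re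
      simp only [Complex.add_re, Complex.natCast_re]
      linarith
    have h3 : AnalyticAt ℂ (fun z : ℂ => z + N) z := analyticAt_id.add analyticAt_const
    exact AnalyticAt.comp (g := hz n) (f := fun z : ℂ => z + N) h2 h3

theorem gamma_an' (z : ℂ) (hz0 : ∀ m : ℕ, z ≠ -m) : AnalyticAt ℂ Complex.Gamma z :=
  (Meromorphic.Gamma _).analyticAt (Complex.continuousAt_Gamma _ hz0)

theorem digamma_an (z : ℂ) (hz0 : ∀ m : ℕ, z ≠ -m) : AnalyticAt ℂ Complex.digamma z := by
  have h1 := gamma_an' z hz0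
  have h2 : AnalyticAt ℂ (fun z => deriv Complex.Gamma z / Complex.Gamma z) z :=
    h1.deriv.div h1 (Complex.Gamma_ne_zero hz0)
  exact h2

variable {p r w : ℕ}

/-- the functions -/
noncomputable def fh (γ : Fin p → ℂ) (lam : Fin r → ℝ) :
    (Fin p ⊕ Fin r) ⊕ (Fin p × Fin w) → ℂ → ℂ
  | Sum.inl (Sum.inl i), z => Complex.Gamma (z + γ i)
  | Sum.inl (Sum.inr l), z => Complex.exp (lam l * z)
  | Sum.inr (i, k), z => if (k : ℕ) = 0 then Complex.digamma (z + γ i) else hz ((k : ℕ) + 1) (z + γ i)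

/-- the domain -/
def Sh (γ : Fin p → ℂ) : Set ℂ := {z | ∀ i (m : ℕ), z + γ i ≠ -m}

theorem Sh_pre (γ : Fin p → ℂ) : IsPreconnected (Sh γ) := by
  have h1 : Sh γ = (⋃ i, ⋃ m : ℕ, {(-(m : ℂ) - γ i)})ᶜ := by
    ext z
    simp only [Sh, Set.mem_ofPred_eq, Set.mem_compl_iff, Set.mem_iUnion, Set.mem_singleton_iff, not_exists]
    refine forall_congr' fun i => forall_congr' fun m => not_congr ?_
    constructor
    · intro h
      linear_combination h
    · intro h
      linear_combination h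
  rw [h1]
  have hc : (⋃ i, ⋃ m : ℕ, {(-(m : ℂ) - γ i)}).Countable :=
    Set.countable_iUnion fun i => Set.countable_iUnion fun m => Set.countable_singleton _
  refine (hc.isPathConnected_compl_of_one_lt_rank ?_).isConnected.isPreconnected
  rw [Complex.rank_real_complex]
  exact Nat.one_lt_ofNat

theorem fh_an (γ : Fin p → ℂ) (lam : Fin r → ℝ) (y : (Fin p ⊕ Fin r) ⊕ (Fin p × Fin w)) :
    AnalyticOnNhd ℂ (fh γ lam y) (Sh γ) := by
  intro z hz'
  have hadd : ∀ i, AnalyticAt ℂ (fun z : ℂ => z + γ i) z := fun i => analyticAt_id.add analyticAt_const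
  rcases y with (i | l) | ⟨i, k⟩
  · exact AnalyticAt.comp (g := Complex.Gamma) (f := fun z : ℂ => z + γ i) (gamma_an' _ (hz' i)) (hadd i)
  · show AnalyticAt ℂ (fun z => Complex.exp (lam l * z)) z
    exact (analyticAt_const.mul analyticAt_id).cexp
  · show AnalyticAt ℂ (fun z => if (k : ℕ) = 0 then Complex.digamma (z + γ i)
      else hz ((k : ℕ) + 1) (z + γ i)) z
    by_cases hk : (k : ℕ) = 0
    · simp only [hk, if_true]
      exact AnalyticAt.comp (g := Complex.digamma) (f := fun z : ℂ => z + γ i) (digamma_an _ (hz' i)) (hadd i)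
    · simp only [hk, if_false]
      exact AnalyticAt.comp (g := hz ((k : ℕ) + 1)) (f := fun z : ℂ => z + γ i)
        (hz_an _ (by omega) _ (hz' i)) (hadd i)

/-- the factors of the shift equations -/
noncomputable def hH (γ : Fin p → ℂ) (lam : Fin r → ℝ) : Fin p ⊕ Fin r → F
  | Sum.inl i => hF γ i
  | Sum.inr l => algebraMap (Polynomial ℂ) F (Polynomial.C (Complex.exp (lam l)))

theorem hH_ne (γ : Fin p → ℂ) (lam : Fin r → ℝ) (y : Fin p ⊕ Fin r) : hH γ lam y ≠ 0 := by
  rcases y with i | l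
  · exact hF_ne γ i
  · intro h2
    exact (Polynomial.C_ne_zero.2 (Complex.exp_ne_zero _))
      (alg_inj (h2.trans (map_zero (algebraMap (Polynomial ℂ) F)).symm))

theorem hH_mul (γ : Fin p → ℂ) (hγ : ∀ i j, i ≠ j → ∀ n : ℤ, γ i ≠ γ j + n) (lam : Fin r → ℝ)
    (hlam : ∀ c : Fin r → ℤ, ∑ l, (c l : ℝ) * lam l = 0 → c = 0)
    (a a' : (Fin p ⊕ Fin r) →₀ ℕ) (v : F) (hv : v ≠ 0)
    (h : (a.prod fun i n => hH γ lam i ^ n) * σF v = (a'.prod fun i n => hH γ lam i ^ n) * v) :
    a = a' := by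
  classical
  let a1 : ((Fin p ⊕ Fin r) →₀ ℕ) → (Fin p →₀ ℕ) := fun a =>
    Finsupp.equivFunOnFinite.symm fun i => a (Sum.inl i)
  have hprod : ∀ a : (Fin p ⊕ Fin r) →₀ ℕ, (a.prod fun i n => hH γ lam i ^ n) =
      algebraMap (Polynomial ℂ) F (Polynomial.C (Complex.exp ((∑ l, (a (Sum.inr l) : ℝ) * lam l : ℝ) : ℂ))) *
        ((a1 a).prod fun i n => hF γ i ^ n) := by
    intro a
    rw [Finsupp.prod_fintype _ _ (fun i => pow_zero _), Fintype.prod_sum_type,
      Finsupp.prod_fintype _ _ (fun i => pow_zero _), mul_comm]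
    congr 1
    push_cast
    rw [Complex.exp_sum, map_prod, map_prod]
    refine Finset.prod_congr rfl fun l _ => ?_
    rw [Complex.exp_nat_mul, map_pow, map_pow]
    rfl
  rw [hprod, hprod] at h
  obtain ⟨h1, h2⟩ := nd_mul γ hγ (a1 a) (a1 a') _ _ (Complex.exp_ne_zero _) (Complex.exp_ne_zero _) v hv h
  rw [← Complex.ofReal_exp, ← Complex.ofReal_exp, Complex.ofReal_inj, Real.exp_eq_exp] at h2
  have h3 := hlam (fun l => (a (Sum.inr l) : ℤ) - a' (Sum.inr l)) (by
    push_cast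
    simp only [sub_mul, Finset.sum_sub_distrib]
    rw [h2, sub_self])
  ext y
  rcases y with i | l
  · have h4 := DFunLike.congr_fun h1 i
    exact h4
  · have h4 := congrFun h3 l
    simp only [Pi.zero_apply] at h4
    omega

theorem Φ_frac (c y : ℂ) (n : ℕ) :
    Φ (algebraMap (Polynomial ℂ) F (Polynomial.C c) /
      algebraMap (Polynomial ℂ) F (Polynomial.X - Polynomial.C y) ^ n) =
      gm fun z => c / (z - y) ^ n := by
  have hL0 : algebraMap (Polynomial ℂ) F (Polynomial.X - Polynomial.C y) ≠ 0 := by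
    intro h2
    exact Polynomial.X_sub_C_ne_zero y (alg_inj (h2.trans (map_zero (algebraMap (Polynomial ℂ) F)).symm))
  have hne : ∀ᶠ t : ℝ in atTop, (t : ℂ) - y ≠ 0 := by
    have := ev_ne _ (Polynomial.X_sub_C_ne_zero y)
    simpa using this
  have hu : IsUnit (gm fun z => (z - y) ^ n) :=
    isUnit_gm (f := fun z => (z - y) ^ n) (hne.mono fun t ht => pow_ne_zero _ ht)
  apply hu.mul_right_cancel
  have h1 : (gm fun z => (z - y) ^ n) =
      Φ (algebraMap (Polynomial ℂ) F (Polynomial.X - Polynomial.C y) ^ n) := by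
    rw [← map_pow, Φ_alg]
    simp
  have h2 : (gm fun z => c / (z - y) ^ n) * (gm fun z => (z - y) ^ n) = gm fun _ => c := by
    refine Filter.Germ.coe_eq.2 ?_
    filter_upwards [hne] with t ht
    exact div_mul_cancel₀ _ (pow_ne_zero _ ht)
  rw [h2, h1, ← map_mul, div_mul_cancel₀ _ (pow_ne_zero _ hL0), Φ_alg]
  simp

/-- the signs in the shift equations -/
def sg (w : ℕ) (k : Fin w) : ℂ := if (k : ℕ) = 0 then 1 else -1

theorem sg_ne (k : Fin w) : sg w k ≠ 0 := by
  unfold sg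
  split_ifs <;> simp

/-- **Algebraic independence.** -/
theorem fh_indep (γ : Fin p → ℂ) (hγ : ∀ i j, i ≠ j → ∀ n : ℤ, γ i ≠ γ j + n) (lam : Fin r → ℝ)
    (hlam : ∀ c : Fin r → ℤ, ∑ l, (c l : ℝ) * lam l = 0 → c = 0)
    (P : MvPolynomial (Option ((Fin p ⊕ Fin r) ⊕ (Fin p × Fin w))) ℂ)
    (hP : ∀ t ∈ Sh γ, MvPolynomial.eval (fun o => o.elim t fun y => fh γ lam y t) P = 0) : P = 0 := by
  classical
  have hfar : ∀ i, ∀ᶠ t : ℝ in atTop, ∀ m : ℕ, (t : ℂ) + γ i ≠ -m := by
    intro i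
    filter_upwards [eventually_gt_atTop (-(γ i).re)] with t ht m h
    have h1 := congrArg Complex.re h
    simp only [Complex.add_re, Complex.ofReal_re, Complex.neg_re, Complex.natCast_re] at h1
    have h2 : (0 : ℝ) ≤ m := Nat.cast_nonneg m
    linarith
  have hlin : ∀ i : Fin p, ∀ z : ℂ, z - -γ i = z + γ i := fun i z => by ring
  refine indep (fh γ lam) (Sh γ) ?_ (hH γ lam) (gF γ (sg w)) (hH_ne γ lam) ?_ ?_ ?_
    (nd_add γ hγ (sg w) sg_ne) (hH_mul γ hγ lam hlam) P hP
  · filter_upwards [Filter.eventually_all.2 hfar] with t ht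
    exact ht
  · rintro (i | l)
    · filter_upwards [hfar i] with t ht
      exact Complex.Gamma_ne_zero ht
    · exact Filter.Eventually.of_forall fun t => Complex.exp_ne_zero _
  · rintro (i | l)
    · show _ = Φ (hF γ i) * _
      rw [hF, Φ_alg]
      refine Filter.Germ.coe_eq.2 ?_
      filter_upwards [hfar i] with t ht
      show Complex.Gamma ((t : ℂ) + 1 + γ i) = Polynomial.eval (t : ℂ) (Polynomial.X - Polynomial.C (-γ i)) *
        Complex.Gamma ((t : ℂ) + γ i)
      rw [Polynomial.eval_sub, Polynomial.eval_X, Polynomial.eval_C, hlin, add_right_comm,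
        Complex.Gamma_add_one]
      have := ht 0
      simpa using this
    · show _ = Φ (algebraMap (Polynomial ℂ) F (Polynomial.C (Complex.exp (lam l)))) * _
      rw [Φ_alg]
      refine Filter.Germ.coe_eq.2 (Filter.Eventually.of_forall fun t => ?_)
      show Complex.exp (lam l * ((t : ℂ) + 1)) = Polynomial.eval (t : ℂ) (Polynomial.C (Complex.exp (lam l))) *
        Complex.exp (lam l * (t : ℂ))
      rw [Polynomial.eval_C, ← Complex.exp_add]
      congr 1
      ring
  · rintro ⟨i, k⟩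
    rw [gF, Φ_frac]
    refine Filter.Germ.coe_eq.2 ?_
    filter_upwards [hfar i] with t ht
    show (if (k : ℕ) = 0 then Complex.digamma ((t : ℂ) + 1 + γ i) else hz ((k : ℕ) + 1) ((t : ℂ) + 1 + γ i)) =
      (if (k : ℕ) = 0 then Complex.digamma ((t : ℂ) + γ i) else hz ((k : ℕ) + 1) ((t : ℂ) + γ i)) +
        sg w k / ((t : ℂ) - -γ i) ^ ((k : ℕ) + 1)
    have h1 : (t : ℂ) + 1 + γ i = ((t : ℂ) + γ i) + 1 := by ring
    rw [hlin, h1]
    by_cases hk : (k : ℕ) = 0
    · rw [if_pos hk, if_pos hk, Complex.digamma_apply_add_one _ ht, sg, if_pos hk, hk, zero_add, pow_one,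
        one_div]
    · rw [if_neg hk, if_neg hk, hz_shift _ (by omega), sg, if_neg hk]
      ring

end Pool.Agent.Y294.OS
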