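import Mathlib

/-!
# Stable ideals of polynomial rings over a field with an endomorphism (Ostrowski, Kolchin)

`K` is a field of characteristic zero with an endomorphism `σ`, `Y_k ↦ Y_k + g_k`, `G_i ↦ h_i G_i`.
If the data are non-degenerate then every non-zero stable ideal of `K[Y][G]` contains a monomial in
the variables `G`.
-/

set_option autoImplicit false

namespace Pool.Agent.Y294.OS

open MvPolynomial

variable {K : Type*} [Field K] {κ : Type*}

/-- the substitution `Y_k ↦ Y_k + g_k`, `σ` on the coefficients -/
noncomputable def sh (σ : K →+* K) (g : κ → K) : MvPolynomial κ K →+* MvPolynomial κ K :=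
  eval₂Hom (C.comp σ) (fun k => X k + C (g k))

theorem sh_C (σ : K →+* K) (g : κ → K) (c : K) : sh σ g (C c) = C (σ c) := by
  simp [sh]

theorem sh_X (σ : K →+* K) (g : κ → K) (k : κ) : sh σ g (X k) = X k + C (g k) := by
  simp [sh]

theorem sh_pderiv (σ : K →+* K) (g : κ → K) (k : κ) (P : MvPolynomial κ K) :
    pderiv k (sh σ g P) = sh σ g (pderiv k P) := by
  classical
  induction P using MvPolynomial.induction_on with
  | C a => rw [sh_C, pderiv_C, pderiv_C, map_zero]
  | add p q hp hq => rw [map_add, map_add, hp, hq, map_add, map_add]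
  | mul_X p n hp =>
    rw [map_mul, pderiv_mul, hp, pderiv_mul, map_add, map_mul, map_mul, sh_X, map_add, pderiv_C,
      add_zero, pderiv_X]
    congr 2
    by_cases h : n = k
    · subst h
      simp
    · rw [Pi.single_eq_of_ne h, map_zero]

/-- the coefficients of high degree -/
theorem coeff_sh_monomial (σ : K →+* K) (g : κ → K) (c : K) (n : ℕ) :
    ∀ m : κ →₀ ℕ, m.degree = n → ∀ b : κ →₀ ℕ, n ≤ b.degree →
      coeff b (sh σ g (monomial m c)) = σ (coeff b (monomial m c)) := by
  classical
  induction n with
  | zero =>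
    intro m hm b _
    have h0 : m = 0 := (Finsupp.degree_eq_zero_iff m).1 hm
    subst h0
    rw [← C_apply, sh_C, coeff_C, coeff_C]
    split_ifs <;> simp
  | succ n ih =>
    intro m hm b hb
    obtain ⟨k, hk⟩ : ∃ k, m k ≠ 0 := by
      by_contra h
      push Not at h
      have : m = 0 := Finsupp.ext h
      rw [this] at hm
      simp at hm
    set m' := m - Finsupp.single k 1 with hm'
    have hmm : m = m' + Finsupp.single k 1 := by
      ext i
      rw [hm', Finsupp.add_apply, Finsupp.tsub_apply, Finsupp.single_apply]
      split_ifs with h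
      · subst h; omega
      · simp
    have hdeg : m'.degree = n := by
      have := hm
      rw [hmm, map_add, Finsupp.degree_single] at this
      omega
    have h1 : (monomial m c : MvPolynomial κ K) = monomial m' c * X k := by
      rw [hmm, X, monomial_mul, mul_one]
    rw [h1, map_mul, sh_X, mul_add, coeff_add, mul_comm _ (C (g k)), coeff_C_mul, coeff_mul_X',
      coeff_mul_X']
    have h2 : coeff b (sh σ g (monomial m' c)) = 0 := by
      rw [ih m' hdeg b (by omega), coeff_monomial, if_neg, map_zero]
      rintro rfl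
      omega
    rw [h2, mul_zero, add_zero]
    split_ifs with h3
    · refine ih m' hdeg _ ?_
      have h4 : b = (b - Finsupp.single k 1) + Finsupp.single k 1 := by
        rw [Finsupp.mem_support_iff] at h3
        ext i
        rw [Finsupp.add_apply, Finsupp.tsub_apply, Finsupp.single_apply]
        split_ifs with h
        · subst h; omega
        · simp
      have h5 := congrArg Finsupp.degree h4
      rw [map_add, Finsupp.degree_single] at h5
      omega
    · rw [map_zero]

theorem coeff_sh (σ : K →+* K) (g : κ → K) (P : MvPolynomial κ K) (b : κ →₀ ℕ)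
    (hb : ∀ m ∈ P.support, m.degree ≤ b.degree) : coeff b (sh σ g P) = σ (coeff b P) := by
  classical
  conv_lhs => rw [P.as_sum]
  conv_rhs => rw [P.as_sum]
  rw [map_sum, coeff_sum, coeff_sum, map_sum]
  exact Finset.sum_congr rfl fun m hm => coeff_sh_monomial σ g _ _ m rfl b (hb m hm)

/-- the degree in all variables -/
noncomputable def dg (P : MvPolynomial κ K) : ℕ := P.support.sup Finsupp.degree

theorem le_dg {P : MvPolynomial κ K} {m : κ →₀ ℕ} (hm : m ∈ P.support) : m.degree ≤ dg P :=
  Finset.le_sup (f := Finsupp.degree) hm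

theorem exists_top {P : MvPolynomial κ K} (hP : P ≠ 0) : ∃ m ∈ P.support, m.degree = dg P := by
  obtain ⟨m, hm, h⟩ := Finset.exists_mem_eq_sup P.support (support_nonempty.2 hP) Finsupp.degree
  exact ⟨m, hm, h.symm⟩

/-- semi-invariant polynomials give semi-invariant elements of `K` -/
theorem semi_inv (σ : K →+* K) (g : κ → K) {P : MvPolynomial κ K} (hP : P ≠ 0) (u : K)
    (h : C u * sh σ g P = P) : ∃ c : K, c ≠ 0 ∧ u * σ c = c := by
  classical
  obtain ⟨m, hm, hd⟩ := exists_top hP
  refine ⟨coeff m P, mem_support_iff.1 hm, ?_⟩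
  have h1 := congrArg (coeff m) h
  rwa [coeff_C_mul, coeff_sh σ g P m (fun m' hm' => (le_dg hm').trans hd.ge)] at h1

/-- invariant polynomials are constant -/
theorem inv_const [CharZero K] [Fintype κ] (σ : K →+* K) (g : κ → K)
    (hadd : ∀ (c : κ → K) (v : K), (∀ k, σ (c k) = c k) → ∑ k, c k * g k = σ v - v → c = 0)
    (n : ℕ) : ∀ P : MvPolynomial κ K, (∀ m ∈ P.support, m.degree ≤ n) → sh σ g P = P →
      P = C (coeff 0 P) := by
  classical
  induction n with
  | zero =>
    intro P hP _
    ext m
    rw [coeff_C]
    split_ifs with h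
    · rw [← h]
    · by_contra h1
      have h2 := hP m (mem_support_iff.2 h1)
      have h3 : m = 0 := (Finsupp.degree_eq_zero_iff m).1 (by omega)
      exact h h3.symm
  | succ n ih =>
    intro P hP hinv
    have hder : ∀ k, pderiv k P = C (coeff 0 (pderiv k P)) := by
      intro k
      refine ih _ (fun m hm => ?_) ?_
      · rw [mem_support_iff, coeff_pderiv] at hm
        have h1 : coeff (m + Finsupp.single k 1) P ≠ 0 := by
          intro h; rw [h] at hm; simp at hm
        have h2 := hP _ (mem_support_iff.2 h1)
        rw [map_add, Finsupp.degree_single] at h2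
        omega
      · rw [← sh_pderiv, hinv]
    -- the coefficients of degree at least two vanish
    have h2 : ∀ m : κ →₀ ℕ, 2 ≤ m.degree → coeff m P = 0 := by
      intro m hm
      obtain ⟨k, hk⟩ : ∃ k, m k ≠ 0 := by
        by_contra h
        push Not at h
        have : m = 0 := Finsupp.ext h
        rw [this] at hm
        simp at hm
      set m' := m - Finsupp.single k 1 with hm'
      have hmm : m' + Finsupp.single k 1 = m := by
        ext i
        rw [hm', Finsupp.add_apply, Finsupp.tsub_apply, Finsupp.single_apply]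
        split_ifs with h
        · subst h; omega
        · simp
      have h3 := congrArg (coeff m') (hder k)
      rw [coeff_pderiv, hmm, coeff_C, if_neg] at h3
      · rcases mul_eq_zero.1 h3 with h4 | h4
        · exact h4
        · exfalso
          have : ((m' k + 1 : ℕ) : K) ≠ 0 := Nat.cast_ne_zero.2 (by omega)
          apply this
          push_cast
          exact h4
      · intro h4
        rw [← hmm, ← h4, zero_add, Finsupp.degree_single] at hm
        omega
    have hform : P = C (coeff 0 P) + ∑ k, C (coeff (Finsupp.single k 1) P) * X k := by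
      ext m
      rw [coeff_add, coeff_C, coeff_sum]
      simp only [coeff_C_mul, coeff_X]
      rcases Nat.lt_or_ge m.degree 2 with hm | hm
      · rcases Nat.lt_or_ge m.degree 1 with hm1 | hm1
        · have h0 : m = 0 := (Finsupp.degree_eq_zero_iff m).1 (by omega)
          subst h0
          rw [if_pos rfl, Finset.sum_eq_zero, add_zero]
          intro k _
          rw [if_neg, mul_zero]
          intro h; 
          have := congrArg Finsupp.degree h
          rw [Finsupp.degree_single] at this
          simp at this
        · have h1 : m.degree = 1 := by omega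
          obtain ⟨k, hk⟩ : ∃ k, m = Finsupp.single k 1 := by
            obtain ⟨k, hk⟩ : ∃ k, m k ≠ 0 := by
              by_contra h
              push Not at h
              have : m = 0 := Finsupp.ext h
              rw [this] at h1
              simp at h1
            refine ⟨k, ?_⟩
            have hmm : m = (m - Finsupp.single k 1) + Finsupp.single k 1 := by
              ext i
              rw [Finsupp.add_apply, Finsupp.tsub_apply, Finsupp.single_apply]
              split_ifs with h
              · subst h; omega
              · simp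
            have h5 := congrArg Finsupp.degree hmm
            rw [map_add, Finsupp.degree_single, h1] at h5
            have h6 : m - Finsupp.single k 1 = 0 := by
              have h7 : (m - Finsupp.single k 1).degree = 0 := by omega
              exact (Finsupp.degree_eq_zero_iff _).1 h7
            rw [h6, zero_add] at hmm
            exact hmm
          subst hk
          rw [if_neg, zero_add, Finset.sum_eq_single k, if_pos rfl, mul_one]
          · intro k' _ hne
            rw [if_neg, mul_zero]
            intro h
            exact hne (Finsupp.single_left_injective one_ne_zero h)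
          · intro h; exact absurd (Finset.mem_univ k) h
          · intro h
            have := congrArg Finsupp.degree h
            rw [Finsupp.degree_single] at this
            simp at this
      · rw [h2 m hm, if_neg, zero_add, Finset.sum_eq_zero]
        · intro k _
          rw [if_neg, mul_zero]
          intro h
          rw [← h, Finsupp.degree_single] at hm
          omega
        · intro h
          rw [← h] at hm
          simp at hm
    set c : κ → K := fun k => coeff (Finsupp.single k 1) P with hc
    set c0 : K := coeff 0 P with hc0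
    have hsh : sh σ g P = C (σ c0 + ∑ k, σ (c k) * g k) + ∑ k, C (σ (c k)) * X k := by
      rw [hform, map_add, sh_C, map_sum]
      have h3 : ∀ k, sh σ g (C (c k) * X k) = C (σ (c k)) * X k + C (σ (c k) * g k) := by
        intro k
        rw [map_mul, sh_C, sh_X, C_mul]
        ring
      rw [Finset.sum_congr rfl fun k _ => h3 k, Finset.sum_add_distrib, C_add, map_sum]
      ring
    have hco : ∀ k, σ (c k) = c k := by
      intro k
      have h3 := congrArg (coeff (Finsupp.single k 1)) (hsh.symm.trans hinv)
      rw [coeff_add, coeff_C, if_neg, zero_add, coeff_sum] at h3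
      · simp only [coeff_C_mul, coeff_X] at h3
        rw [Finset.sum_eq_single k, if_pos rfl, mul_one] at h3
        · exact h3
        · intro k' _ hne
          rw [if_neg, mul_zero]
          intro h
          exact hne (Finsupp.single_left_injective one_ne_zero h)
        · intro h; exact absurd (Finset.mem_univ k) h
      · intro h
        have := congrArg Finsupp.degree h
        rw [Finsupp.degree_single] at this
        simp at this
    have hc00 : σ c0 + ∑ k, σ (c k) * g k = c0 := by
      have h3 := congrArg (coeff 0) (hsh.symm.trans hinv)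
      have h4 : ∑ k, coeff 0 (C (σ (c k)) * X k : MvPolynomial κ K) = 0 := by
        refine Finset.sum_eq_zero fun k _ => ?_
        rw [coeff_C_mul, coeff_X, if_neg, mul_zero]
        intro h
        have := congrArg Finsupp.degree h
        rw [Finsupp.degree_single] at this
        simp at this
      rw [coeff_add, coeff_C, if_pos rfl, coeff_sum, h4, add_zero] at h3
      exact h3
    have hcz : (fun k => - c k) = 0 := by
      refine hadd (fun k => - c k) c0 (fun k => by rw [map_neg, hco]) ?_
      simp only [hco] at hc00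
      simp only [neg_mul, Finset.sum_neg_distrib]
      linear_combination -hc00
    have h5 : ∑ k, C (coeff (Finsupp.single k 1) P) * X k = (0 : MvPolynomial κ K) := by
      refine Finset.sum_eq_zero fun k _ => ?_
      have h3 := congrFun hcz k
      simp only [Pi.zero_apply, neg_eq_zero] at h3
      rw [show coeff (Finsupp.single k 1) P = c k from rfl, h3, C_0, zero_mul]
    rw [h5, add_zero] at hform
    exact hform

variable {ι : Type*}

/-- `σ` on the coefficients, `Y_k ↦ Y_k + g_k`, `G_i ↦ h_i G_i` -/
noncomputable def Sg (σ : K →+* K) (g : κ → K) (h : ι → K) :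
    MvPolynomial ι (MvPolynomial κ K) →+* MvPolynomial ι (MvPolynomial κ K) :=
  eval₂Hom (C.comp (sh σ g)) (fun i => C (C (h i)) * X i)

theorem coeff_Sg (σ : K →+* K) (g : κ → K) (h : ι → K) (P : MvPolynomial ι (MvPolynomial κ K))
    (a : ι →₀ ℕ) : coeff a (Sg σ g h P) = C (a.prod fun i n => h i ^ n) * sh σ g (coeff a P) := by
  classical
  induction P using MvPolynomial.induction_on' with
  | monomial b c =>
    have h1 : Sg σ g h (monomial b c) =
        monomial b (C (b.prod fun i n => h i ^ n) * sh σ g c) := by
      rw [Sg, coe_eval₂Hom, eval₂_monomial, RingHom.comp_apply]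
      have h2 : (b.prod fun i n => (C (C (h i)) * X i : MvPolynomial ι (MvPolynomial κ K)) ^ n) =
          C (C (b.prod fun i n => h i ^ n)) * b.prod fun i n => (X i) ^ n := by
        simp only [Finsupp.prod, mul_pow, Finset.prod_mul_distrib, map_prod, map_pow]
      rw [h2, ← mul_assoc, ← C_mul, mul_comm (sh σ g c)]
      rw [monomial_eq]
    rw [h1, coeff_monomial, coeff_monomial]
    split_ifs with h3
    · rw [h3]
    · rw [map_zero, mul_zero]
  | add p q hp hq => rw [map_add, coeff_add, hp, hq, coeff_add, map_add, mul_add]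

/-- the number of terms of top degree -/
noncomputable def nt (P : MvPolynomial κ K) : ℕ := by
  classical
  exact (P.support.filter fun m => m.degree = dg P).card

/-- **Stable ideals contain monomials.** -/
theorem core [CharZero K] [Fintype κ] (σ : K →+* K) (g : κ → K) (h : ι → K) (hh : ∀ i, h i ≠ 0)
    (hadd : ∀ (c : κ → K) (v : K), (∀ k, σ (c k) = c k) → ∑ k, c k * g k = σ v - v → c = 0)
    (hmul : ∀ (a a' : ι →₀ ℕ) (v : K), v ≠ 0 →
      (a.prod fun i n => h i ^ n) * σ v = (a'.prod fun i n => h i ^ n) * v → a = a')
    (I : Ideal (MvPolynomial ι (MvPolynomial κ K))) (hI : ∀ P ∈ I, Sg σ g h P ∈ I)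
    (hI0 : I ≠ ⊥) : ∃ a : ι →₀ ℕ, (monomial a 1 : MvPolynomial ι (MvPolynomial κ K)) ∈ I := by
  classical
  let μ : (MvPolynomial ι (MvPolynomial κ K) × (ι →₀ ℕ)) → ℕ ×ₗ (ℕ ×ₗ ℕ) := fun x =>
    toLex (x.1.support.card, toLex (dg (coeff x.2 x.1), nt (coeff x.2 x.1)))
  obtain ⟨P1, hP1, hP10⟩ := Submodule.exists_mem_ne_zero_of_ne_bot hI0
  obtain ⟨a1, ha1⟩ := ne_zero_iff.1 hP10
  obtain ⟨⟨P, a0⟩, ⟨hPI, hPa⟩, hmin⟩ := WellFounded.has_min
    (InvImage.wf μ (wellFounded_lt (α := ℕ ×ₗ (ℕ ×ₗ ℕ))))
    {x | x.1 ∈ I ∧ coeff x.2 x.1 ≠ 0} ⟨(P1, a1), hP1, ha1⟩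
  simp only at hPI hPa
  set P0 := coeff a0 P with hP0
  obtain ⟨b0, hb0, hb0d⟩ := exists_top hPa
  set c := coeff b0 P0 with hc
  have hc0 : c ≠ 0 := mem_support_iff.1 hb0
  have hσc : σ c ≠ 0 := (map_ne_zero σ).2 hc0
  set H : (ι →₀ ℕ) → K := fun a => a.prod fun i n => h i ^ n with hH
  have hH0 : ∀ a, H a ≠ 0 := fun a => Finset.prod_ne_zero_iff.2 fun i _ => pow_ne_zero _ (hh i)
  set Q := C (C (c * (σ c)⁻¹ * (H a0)⁻¹)) * Sg σ g h P - P with hQ
  have hQI : Q ∈ I := I.sub_mem (I.mul_mem_left _ (hI P hPI)) hPI
  have hQc : ∀ a, coeff a Q = C (c * (σ c)⁻¹ * (H a0)⁻¹ * H a) * sh σ g (coeff a P) -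
      coeff a P := by
    intro a
    rw [hQ, coeff_sub, coeff_C_mul, coeff_Sg, ← mul_assoc, ← C_mul]
  have hQ0 : Q = 0 := by
    by_contra hne
    have hsub : Q.support ⊆ P.support := by
      intro a ha
      rw [mem_support_iff, hQc] at ha
      rw [mem_support_iff]
      intro h0
      rw [h0, map_zero, mul_zero, sub_zero] at ha
      exact ha rfl
    by_cases h0 : coeff a0 Q = 0
    · obtain ⟨a2, ha2⟩ := ne_zero_iff.1 hne
      refine hmin (Q, a2) ⟨hQI, ha2⟩ ?_
      have hlt : Q.support.card < P.support.card := by
        refine Finset.card_lt_card ⟨hsub, fun h1 => ?_⟩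
        exact (mem_support_iff.1 (h1 (mem_support_iff.2 hPa))) h0
      show μ (Q, a2) < μ (P, a0)
      exact Prod.Lex.toLex_lt_toLex.2 (Or.inl hlt)
    · have hQ00 : coeff a0 Q = C (c * (σ c)⁻¹) * sh σ g P0 - P0 := by
        rw [hQc, mul_assoc _ (H a0)⁻¹, inv_mul_cancel₀ (hH0 a0), mul_one]
      have hco : ∀ b : κ →₀ ℕ, dg P0 ≤ b.degree →
          coeff b (coeff a0 Q) = c * (σ c)⁻¹ * σ (coeff b P0) - coeff b P0 := by
        intro b hb
        rw [hQ00, coeff_sub, coeff_C_mul, coeff_sh σ g P0 b (fun m hm => (le_dg hm).trans hb)]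
      have hdle : dg (coeff a0 Q) ≤ dg P0 := by
        refine Finset.sup_le fun m hm => ?_
        by_contra h1
        push Not at h1
        have h2 : coeff m P0 = 0 := by
          by_contra h3
          exact absurd (le_dg (mem_support_iff.2 h3)) (by omega)
        rw [mem_support_iff, hco m h1.le, h2, map_zero, mul_zero, sub_zero] at hm
        exact hm rfl
      refine hmin (Q, a0) ⟨hQI, h0⟩ ?_
      show μ (Q, a0) < μ (P, a0)
      refine Prod.Lex.toLex_lt_toLex.2 ?_
      rcases (Finset.card_le_card hsub).lt_or_eq with h1 | h1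
      · exact Or.inl h1
      refine Or.inr ⟨h1, Prod.Lex.toLex_lt_toLex.2 ?_⟩
      rcases hdle.lt_or_eq with h2 | h2
      · exact Or.inl h2
      refine Or.inr ⟨h2, ?_⟩
      refine Finset.card_lt_card ⟨?_, ?_⟩
      · intro m hm
        rw [Finset.mem_filter, h2] at hm
        rw [Finset.mem_filter]
        refine ⟨?_, hm.2⟩
        rw [mem_support_iff]
        intro h3
        have h4 := hm.1
        rw [mem_support_iff, hco m hm.2.ge] at h4
        change coeff m P0 = 0 at h3
        rw [h3, map_zero, mul_zero, sub_zero] at h4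
        exact h4 rfl
      · intro h3
        have h4 : b0 ∈ (coeff a0 P).support.filter fun m => m.degree = dg (coeff a0 P) :=
          Finset.mem_filter.2 ⟨hb0, hb0d⟩
        have h5 := Finset.mem_filter.1 (h3 h4)
        have h6 := h5.1
        rw [mem_support_iff, hco b0 hb0d.ge] at h6
        apply h6
        rw [← hc, mul_assoc, inv_mul_cancel₀ hσc, mul_one, sub_self]
  have heq : ∀ a, C (c * (σ c)⁻¹ * (H a0)⁻¹ * H a) * sh σ g (coeff a P) = coeff a P := by
    intro a
    have h1 := hQc a
    rw [hQ0, coeff_zero] at h1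
    exact (sub_eq_zero.1 h1.symm)
  -- the coefficient of `a0` is a constant
  have hinv : sh σ g (C c⁻¹ * P0) = C c⁻¹ * P0 := by
    have h1 := heq a0
    rw [mul_assoc _ (H a0)⁻¹, inv_mul_cancel₀ (hH0 a0), mul_one] at h1
    rw [map_mul, sh_C, map_inv₀]
    conv_rhs => rw [hP0, ← h1, ← mul_assoc, ← C_mul, ← mul_assoc, inv_mul_cancel₀ hc0, one_mul]
  have hconst : C c⁻¹ * P0 = C (coeff 0 (C c⁻¹ * P0)) :=
    inv_const σ g hadd (dg (C c⁻¹ * P0)) _ (fun m hm => le_dg hm) hinv
  have hP0c : P0 = C (c * coeff 0 (C c⁻¹ * P0)) := by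
    rw [C_mul, ← hconst, ← mul_assoc, ← C_mul, mul_inv_cancel₀ hc0, C_1, one_mul]
  -- the other coefficients vanish
  have hother : ∀ a, a ≠ a0 → coeff a P = 0 := by
    intro a hne
    by_contra h0
    obtain ⟨v, hv, hv1⟩ := semi_inv σ g h0 _ (heq a)
    refine hne (hmul a a0 (v * c⁻¹) (mul_ne_zero hv (inv_ne_zero hc0)) ?_)
    change H a * σ (v * c⁻¹) = H a0 * (v * c⁻¹)
    have h5 := congrArg (fun z => H a0 * (z * c⁻¹)) hv1
    rw [map_mul, map_inv₀, ← h5]
    have h6 := hH0 a0
    field_simp
  have hPeq : P = monomial a0 P0 := by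
    ext1 a
    rw [coeff_monomial]
    split_ifs with h1
    · rw [← h1]
    · exact hother a (Ne.symm h1)
  set e := c * coeff 0 (C c⁻¹ * P0) with he
  have he0 : e ≠ 0 := by
    intro h1
    rw [h1, C_0] at hP0c
    exact hPa hP0c
  refine ⟨a0, ?_⟩
  have h1 : (monomial a0 1 : MvPolynomial ι (MvPolynomial κ K)) = C (C e⁻¹) * P := by
    rw [hPeq, C_mul_monomial, hP0c, ← C_mul, inv_mul_cancel₀ he0, C_1]
  rw [h1]
  exact I.mul_mem_left _ hPI

end Pool.Agent.Y294.OS
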