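import Pool.Agent.Y294.OS.Rat

/-!
# Germs at infinity: functions with rational shift equations are algebraically independent
-/

set_option autoImplicit false

namespace Pool.Agent.Y294.OS

open Filter Topology

/-- germs at `+∞` of complex functions of a real variable -/
abbrev Gm := Filter.Germ (Filter.atTop : Filter ℝ) ℂ

/-- the germ of a function on `ℂ` -/
noncomputable def gm (f : ℂ → ℂ) : Gm := ((fun t : ℝ => f (t : ℂ) : ℝ → ℂ) : Gm)

/-- the germ of a polynomial -/
noncomputable def polyG : Polynomial ℂ →+* Gm :=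
  (Filter.Germ.coeRingHom (Filter.atTop : Filter ℝ)).comp
    (RingHom.pi fun t : ℝ => Polynomial.evalRingHom (t : ℂ))

theorem polyG_apply (p : Polynomial ℂ) : polyG p = gm fun z => p.eval z := rfl

theorem ev_ne (p : Polynomial ℂ) (hp : p ≠ 0) : ∀ᶠ t : ℝ in atTop, p.eval (t : ℂ) ≠ 0 := by
  classical
  have h1 : ∀ z ∈ p.roots.toFinset, ∀ᶠ t : ℝ in atTop, (t : ℂ) ≠ z := by
    intro z _
    filter_upwards [eventually_gt_atTop ‖z‖] with t ht h
    rw [← h, Complex.norm_real] at ht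
    exact absurd (le_abs_self t) (not_le.2 ht)
  have h2 := (Filter.eventually_all_finset _).2 h1
  filter_upwards [h2] with t ht h0
  exact ht t (by rw [Multiset.mem_toFinset]; exact (Polynomial.mem_roots hp).2 h0) rfl

theorem isUnit_gm {f : ℂ → ℂ} (h : ∀ᶠ t : ℝ in atTop, f (t : ℂ) ≠ 0) : IsUnit (gm f) := by
  refine IsUnit.of_mul_eq_one (gm fun z => (f z)⁻¹) ?_
  refine Filter.Germ.coe_eq.2 ?_
  filter_upwards [h] with t ht
  exact mul_inv_cancel₀ ht

theorem isUnit_polyG (y : nonZeroDivisors (Polynomial ℂ)) : IsUnit (polyG y.1) := by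
  rw [polyG_apply]
  exact isUnit_gm (f := fun z => Polynomial.eval z y.1) (ev_ne y.1 (nonZeroDivisors.ne_zero y.2))

/-- the germ of a rational function -/
noncomputable def Φ : F →+* Gm :=
  IsLocalization.lift (M := nonZeroDivisors (Polynomial ℂ)) (g := polyG) isUnit_polyG

theorem Φ_alg (p : Polynomial ℂ) : Φ (algebraMap (Polynomial ℂ) F p) = gm fun z => p.eval z := by
  rw [← polyG_apply]
  exact IsLocalization.lift_eq isUnit_polyG p

theorem tt : Tendsto (fun t : ℝ => t + 1) atTop atTop := tendsto_atTop_add_const_right _ _ tendsto_id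

/-- the shift -/
noncomputable def τ : Gm →+* Gm where
  toFun f := f.compTendsto (fun t : ℝ => t + 1) tt
  map_one' := rfl
  map_zero' := rfl
  map_mul' f g := by
    induction f, g using Filter.Germ.inductionOn₂ with
    | _ f g => rfl
  map_add' f g := by
    induction f, g using Filter.Germ.inductionOn₂ with
    | _ f g => rfl

theorem τ_gm (f : ℂ → ℂ) : τ (gm f) = gm fun z => f (z + 1) := by
  show (((fun t : ℝ => f (t : ℂ) : ℝ → ℂ) : Gm)).compTendsto (fun t : ℝ => t + 1) tt = _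
  rw [Filter.Germ.coe_compTendsto]
  unfold gm
  congr 1
  funext t
  simp

theorem τ_Φ (v : F) : τ (Φ v) = Φ (σF v) := by
  have h : τ.comp Φ = Φ.comp σF := by
    refine IsLocalization.ringHom_ext (nonZeroDivisors (Polynomial ℂ)) ?_
    refine RingHom.ext fun p => ?_
    simp only [RingHom.comp_apply]
    rw [Φ_alg, τ_gm, σF_alg, Φ_alg]
    congr 1
    funext z
    simp [pshift_apply, Polynomial.eval_comp]
  exact RingHom.congr_fun h v

open MvPolynomial

variable {ι κ : Type*}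

/-- evaluation -/
noncomputable def ev (G : ι → Gm) (Y : κ → Gm) : MvPolynomial ι (MvPolynomial κ F) →+* Gm :=
  eval₂Hom (eval₂Hom Φ Y) G

theorem ev_Sg (G : ι → Gm) (Y : κ → Gm) (h : ι → F) (g : κ → F) (hG : ∀ i, τ (G i) = Φ (h i) * G i)
    (hY : ∀ k, τ (Y k) = Y k + Φ (g k)) (P : MvPolynomial ι (MvPolynomial κ F)) :
    ev G Y (Sg σF g h P) = τ (ev G Y P) := by
  have h1 : (eval₂Hom Φ Y).comp (sh σF g) = τ.comp (eval₂Hom Φ Y) := by
    refine MvPolynomial.ringHom_ext (fun c => ?_) (fun k => ?_)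
    · simp only [RingHom.comp_apply, sh_C, eval₂Hom_C, τ_Φ]
    · simp only [RingHom.comp_apply, sh_X, map_add, eval₂Hom_X', eval₂Hom_C, hY]
  have h2 : (ev G Y).comp (Sg σF g h) = τ.comp (ev G Y) := by
    refine MvPolynomial.ringHom_ext (fun c => ?_) (fun i => ?_)
    · have h3 := RingHom.congr_fun h1 c
      simp only [RingHom.comp_apply] at h3
      simp only [RingHom.comp_apply, Sg, ev, eval₂Hom_C, h3]
    · simp only [RingHom.comp_apply, Sg, ev, eval₂Hom_C, eval₂Hom_X', map_mul, hG]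
  exact RingHom.congr_fun h2 P

/-- **Algebraic independence of germs with rational shift equations.** -/
theorem ev_inj [Fintype κ] (G : ι → Gm) (Y : κ → Gm) (h : ι → F) (g : κ → F)
    (hh : ∀ i, h i ≠ 0) (hGu : ∀ i, IsUnit (G i)) (hG : ∀ i, τ (G i) = Φ (h i) * G i)
    (hY : ∀ k, τ (Y k) = Y k + Φ (g k))
    (hadd : ∀ (c : κ → F) (v : F), (∀ k, σF (c k) = c k) → ∑ k, c k * g k = σF v - v → c = 0)
    (hmul : ∀ (a a' : ι →₀ ℕ) (v : F), v ≠ 0 →
      (a.prod fun i n => h i ^ n) * σF v = (a'.prod fun i n => h i ^ n) * v → a = a') :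
    Function.Injective (ev G Y) := by
  rw [RingHom.injective_iff_ker_eq_bot]
  by_contra hne
  obtain ⟨a, ha⟩ := core σF g h hh hadd hmul (RingHom.ker (ev G Y)) (fun P hP => by
    rw [RingHom.mem_ker] at hP ⊢
    rw [ev_Sg G Y h g hG hY, hP, map_zero]) hne
  rw [RingHom.mem_ker] at ha
  have h1 : ev G Y (monomial a 1) = a.prod fun i n => G i ^ n := by
    rw [ev, coe_eval₂Hom, eval₂_monomial, map_one, one_mul]
  rw [h1] at ha
  have h2 : IsUnit (a.prod fun i n => G i ^ n) := by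
    rw [Finsupp.prod]
    exact (IsUnit.prod_iff).2 fun i _ => (hGu i).pow _
  rw [ha] at h2
  exact not_isUnit_zero h2

/-- the polynomial ring over the rational functions -/
noncomputable def θ (ι κ : Type*) : MvPolynomial (Option (ι ⊕ κ)) ℂ →+* MvPolynomial ι (MvPolynomial κ F) :=
  ((sumAlgEquiv F ι κ : MvPolynomial (ι ⊕ κ) F →+* MvPolynomial ι (MvPolynomial κ F))).comp
    ((MvPolynomial.map (algebraMap (Polynomial ℂ) F)).comp
      (optionEquivRight ℂ (ι ⊕ κ) : MvPolynomial (Option (ι ⊕ κ)) ℂ →+* MvPolynomial (ι ⊕ κ) (Polynomial ℂ)))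

theorem θ_inj : Function.Injective (θ ι κ) := by
  unfold θ
  intro p q h
  simp only [RingHom.comp_apply, RingHom.coe_coe, EmbeddingLike.apply_eq_iff_eq] at h
  exact (optionEquivRight ℂ (ι ⊕ κ)).injective (map_injective _ alg_inj h)

theorem ev_θ (f : ι ⊕ κ → ℂ → ℂ) (P : MvPolynomial (Option (ι ⊕ κ)) ℂ) :
    ev (fun i => gm (f (Sum.inl i))) (fun k => gm (f (Sum.inr k))) (θ ι κ P) =
      gm fun z => eval (fun o => o.elim z fun y => f y z) P := by
  let E : MvPolynomial (Option (ι ⊕ κ)) ℂ →+* Gm :=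
    (Filter.Germ.coeRingHom (Filter.atTop : Filter ℝ)).comp
      (RingHom.pi fun t : ℝ => MvPolynomial.eval (fun o => o.elim (t : ℂ) fun y => f y t))
  have hE : ∀ P, E P = gm fun z => eval (fun o => o.elim z fun y => f y z) P := fun P => rfl
  rw [← hE]
  have h1 : (ev (fun i => gm (f (Sum.inl i))) (fun k => gm (f (Sum.inr k)))).comp (θ ι κ) = E := by
    refine MvPolynomial.ringHom_ext (fun c => ?_) (fun o => ?_)
    · rw [hE]
      simp only [RingHom.comp_apply, θ, RingHom.coe_coe, optionEquivRight_C, map_C, sumAlgEquiv_C_inl,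
        ev, eval₂Hom_C, Φ_alg, Polynomial.eval_C, eval_C]
    · rw [hE]
      rcases o with _ | (i | k)
      · simp only [RingHom.comp_apply, θ, RingHom.coe_coe, optionEquivRight_X_none, map_C, sumAlgEquiv_C_inl,
          ev, eval₂Hom_C, Φ_alg, Polynomial.eval_X, eval_X, Option.elim]
      · simp only [RingHom.comp_apply, θ, RingHom.coe_coe, optionEquivRight_X_some, map_X, sumAlgEquiv_X_inl,
          ev, eval₂Hom_X', eval_X, Option.elim]
      · simp only [RingHom.comp_apply, θ, RingHom.coe_coe, optionEquivRight_X_some, map_X, sumAlgEquiv_X_inr,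
          ev, eval₂Hom_X', eval₂Hom_C, eval_X, Option.elim]
  exact RingHom.congr_fun h1 P

/-- **The theorem of Ostrowski and Kolchin for functions with rational shift equations.** -/
theorem indep [Fintype κ] (f : ι ⊕ κ → ℂ → ℂ) (S : Set ℂ) (hS : ∀ᶠ t : ℝ in atTop, (t : ℂ) ∈ S)
    (h : ι → F) (g : κ → F) (hh : ∀ i, h i ≠ 0)
    (hG0 : ∀ i, ∀ᶠ t : ℝ in atTop, f (Sum.inl i) (t : ℂ) ≠ 0)
    (hG : ∀ i, (gm fun z => f (Sum.inl i) (z + 1)) = Φ (h i) * gm (f (Sum.inl i)))
    (hY : ∀ k, (gm fun z => f (Sum.inr k) (z + 1)) = gm (f (Sum.inr k)) + Φ (g k))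
    (hadd : ∀ (c : κ → F) (v : F), (∀ k, σF (c k) = c k) → ∑ k, c k * g k = σF v - v → c = 0)
    (hmul : ∀ (a a' : ι →₀ ℕ) (v : F), v ≠ 0 →
      (a.prod fun i n => h i ^ n) * σF v = (a'.prod fun i n => h i ^ n) * v → a = a')
    (P : MvPolynomial (Option (ι ⊕ κ)) ℂ)
    (hP : ∀ t ∈ S, eval (fun o => o.elim t fun y => f y t) P = 0) : P = 0 := by
  have h1 := ev_inj (fun i => gm (f (Sum.inl i))) (fun k => gm (f (Sum.inr k))) h g hh
    (fun i => isUnit_gm (hG0 i)) (fun i => by rw [τ_gm, hG]) (fun k => by rw [τ_gm, hY]) hadd hmul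
  apply θ_inj
  apply h1
  rw [ev_θ, map_zero, map_zero]
  refine Filter.Germ.coe_eq.2 ?_
  filter_upwards [hS] with t ht
  exact hP t ht

end Pool.Agent.Y294.OS
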