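import Pool.Agent.Y294.OS.Core

/-!
# The shift on rational functions: non-degeneracy of the equations of the Gamma function and of the
Hurwitz zeta functions
-/

set_option autoImplicit false

namespace Pool.Agent.Y294.OS

open Polynomial

/-- rational functions -/
abbrev F := FractionRing ℂ[X]

/-- `p ↦ p (X + 1)` -/
noncomputable def pshift : ℂ[X] →+* ℂ[X] := Polynomial.compRingHom (X + C 1)

theorem pshift_apply (p : ℂ[X]) : pshift p = p.comp (X + C 1) := rfl

theorem pshift_inj : Function.Injective pshift := by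
  intro p q h
  have h1 : (p.comp (X + C 1)).comp (X - C 1) = (q.comp (X + C 1)).comp (X - C 1) := by
    rw [← pshift_apply, ← pshift_apply, h]
  have h2 : ∀ r : ℂ[X], (r.comp (X + C 1)).comp (X - C 1) = r := by
    intro r
    rw [comp_assoc]
    simp
  rwa [h2, h2] at h1

/-- the shift on rational functions -/
noncomputable def σF : F →+* F := IsFractionRing.map pshift_inj

theorem σF_alg (p : ℂ[X]) : σF (algebraMap ℂ[X] F p) = algebraMap ℂ[X] F (pshift p) := by
  unfold σF IsFractionRing.map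
  exact IsLocalization.map_eq _ p

/-- every rational function is a quotient of polynomials -/
theorem exists_div (v : F) : ∃ a b : ℂ[X], b ≠ 0 ∧ v * algebraMap ℂ[X] F b = algebraMap ℂ[X] F a := by
  obtain ⟨a, b, hb, h⟩ := IsFractionRing.div_surjective (A := ℂ[X]) v
  have hb0 : b ≠ 0 := nonZeroDivisors.ne_zero hb
  have hb1 : algebraMap ℂ[X] F b ≠ 0 := by
    intro h1
    exact hb0 ((IsFractionRing.injective ℂ[X] F) (by rw [h1, map_zero]))
  exact ⟨a, b, hb0, by rw [← h, div_mul_cancel₀ _ hb1]⟩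

theorem alg_inj : Function.Injective (algebraMap ℂ[X] F) := IsFractionRing.injective ℂ[X] F

/-- `v` is regular at `z` -/
def Reg (v : F) (z : ℂ) : Prop :=
  ∃ a b : ℂ[X], b.eval z ≠ 0 ∧ v * algebraMap ℂ[X] F b = algebraMap ℂ[X] F a

theorem Reg.add {v w : F} {z : ℂ} (hv : Reg v z) (hw : Reg w z) : Reg (v + w) z := by
  obtain ⟨a, b, hb, h⟩ := hv
  obtain ⟨a', b', hb', h'⟩ := hw
  refine ⟨a * b' + a' * b, b * b', by rw [eval_mul]; exact mul_ne_zero hb hb', ?_⟩
  simp only [map_add, map_mul]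
  rw [← h, ← h']
  ring

theorem Reg.mul {v w : F} {z : ℂ} (hv : Reg v z) (hw : Reg w z) : Reg (v * w) z := by
  obtain ⟨a, b, hb, h⟩ := hv
  obtain ⟨a', b', hb', h'⟩ := hw
  refine ⟨a * a', b * b', by rw [eval_mul]; exact mul_ne_zero hb hb', ?_⟩
  simp only [map_mul]
  rw [← h, ← h']
  ring

theorem Reg.alg (p : ℂ[X]) (z : ℂ) : Reg (algebraMap ℂ[X] F p) z :=
  ⟨p, 1, by simp, by simp⟩

theorem Reg.neg {v : F} {z : ℂ} (hv : Reg v z) : Reg (-v) z := by
  have h := (Reg.alg (-1) z).mul hv
  simpa using h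

theorem Reg.sub {v w : F} {z : ℂ} (hv : Reg v z) (hw : Reg w z) : Reg (v - w) z := by
  rw [sub_eq_add_neg]
  exact hv.add hw.neg

theorem Reg.sum {α : Type*} (s : Finset α) (f : α → F) {z : ℂ} (h : ∀ i ∈ s, Reg (f i) z) :
    Reg (∑ i ∈ s, f i) z := by
  classical
  induction s using Finset.induction_on with
  | empty => simpa using Reg.alg 0 z
  | insert a s ha ih =>
    rw [Finset.sum_insert ha]
    exact (h a (Finset.mem_insert_self a s)).add (ih fun i hi => h i (Finset.mem_insert_of_mem hi))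

theorem reg_shift (v : F) (z : ℂ) : Reg (σF v) z ↔ Reg v (z + 1) := by
  constructor
  · rintro ⟨a, b, hb, h⟩
    have hp : ∀ r : ℂ[X], pshift (r.comp (X - C 1)) = r := by
      intro r
      rw [pshift_apply, comp_assoc]
      simp
    refine ⟨a.comp (X - C 1), b.comp (X - C 1), by simpa [eval_comp] using hb, ?_⟩
    apply σF.injective
    rw [map_mul, σF_alg, σF_alg, hp, hp, h]
  · rintro ⟨a, b, hb, h⟩
    refine ⟨pshift a, pshift b, by simpa [pshift_apply, eval_comp] using hb, ?_⟩
    rw [← σF_alg, ← σF_alg, ← h, map_mul]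

/-- the points `z + n` -/
theorem reg_far (v : F) (z : ℂ) : ∃ N : ℕ, ∀ n : ℤ, (N : ℤ) ≤ |n| → Reg v (z + n) := by
  classical
  obtain ⟨a, b, hb, h⟩ := exists_div v
  have hfin : {n : ℤ | b.eval (z + n) = 0}.Finite := by
    refine Set.Finite.of_finite_image (f := fun n : ℤ => z + (n : ℂ)) ?_ ?_
    · refine (b.roots.toFinset.finite_toSet).subset ?_
      rintro _ ⟨n, hn, rfl⟩
      simp only [Finset.mem_coe, Multiset.mem_toFinset]
      exact (mem_roots hb).2 hn
    · intro n _ m _ hnm
      simpa using hnm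
  obtain ⟨N, hN⟩ : ∃ N : ℕ, ∀ n ∈ {n : ℤ | b.eval (z + n) = 0}, |n| < N := by
    obtain ⟨M, hM⟩ := (hfin.image fun n => |n|).bddAbove
    refine ⟨M.toNat + 1, fun n hn => ?_⟩
    have h1 : |n| ≤ M := hM ⟨n, hn, rfl⟩
    push_cast
    have := Int.self_le_toNat M
    omega
  refine ⟨N, fun n hn => ⟨a, b, fun h1 => ?_, h⟩⟩
  exact absurd (hN n h1) (by omega)

/-- regularity propagates: if `σ v - v` is regular at all points `z + n`, `n ≠ 0`, then it is
regular at `z` -/
theorem reg_all (v : F) (z : ℂ) (h : ∀ n : ℤ, n ≠ 0 → Reg (σF v - v) (z + n)) :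
    Reg (σF v - v) z := by
  obtain ⟨N, hN⟩ := reg_far v z
  have hstep : ∀ n : ℤ, n ≠ 0 → (Reg v (z + n) ↔ Reg v (z + ((n + 1 : ℤ) : ℂ))) := by
    intro n hn
    have h1 := reg_shift v (z + n)
    have h2 : (z + (n : ℂ)) + 1 = z + ((n + 1 : ℤ) : ℂ) := by push_cast; ring
    rw [h2] at h1
    rw [← h1]
    constructor
    · intro h3
      have h4 := (h n hn).add h3
      rwa [sub_add_cancel] at h4
    · intro h3
      have h4 := h3.sub (h n hn)
      rwa [sub_sub_cancel] at h4
  have hpos : ∀ m : ℕ, (m : ℤ) ≤ N → Reg v (z + (((N : ℤ) + 1 - m : ℤ) : ℂ)) := by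
    intro m
    induction m with
    | zero =>
      intro _
      exact hN _ (by push_cast; rw [abs_of_nonneg] <;> omega)
    | succ m ih =>
      intro hm
      have h1 := ih (by push_cast at hm ⊢; omega)
      have h2 := (hstep ((N : ℤ) + 1 - (m + 1 : ℕ)) (by push_cast at hm ⊢; omega)).2
      apply h2
      convert h1 using 3
      push_cast
      ring
  have hneg : ∀ m : ℕ, (m : ℤ) ≤ N → Reg v (z + ((-(N : ℤ) + m : ℤ) : ℂ)) := by
    intro m
    induction m with
    | zero =>
      intro _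
      exact hN _ (by push_cast; rw [add_zero, abs_neg, abs_of_nonneg] <;> omega)
    | succ m ih =>
      intro hm
      have h1 := ih (by push_cast at hm ⊢; omega)
      have h2 := (hstep (-(N : ℤ) + m) (by push_cast at hm ⊢; omega)).1 h1
      convert h2 using 3
      push_cast
      ring
  have h0 : Reg v z := by
    have := hneg N le_rfl
    simpa using this
  have h1 : Reg v (z + 1) := by
    have := hpos N le_rfl
    have h2 : (((N : ℤ) + 1 - N : ℤ) : ℂ) = 1 := by push_cast; ring
    rwa [h2] at this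
  exact ((reg_shift v z).2 h1).sub h0

/-- polar parts are not regular -/
theorem polar (z : ℂ) (w : ℕ) (c : Fin w → ℂ)
    (h : Reg (∑ k, algebraMap ℂ[X] F (C (c k)) / algebraMap ℂ[X] F (X - C z) ^ ((k : ℕ) + 1)) z) :
    c = 0 := by
  classical
  obtain ⟨a, b, hb, h1⟩ := h
  set L : F := algebraMap ℂ[X] F (X - C z) with hL
  have hL0 : L ≠ 0 := by
    intro h2
    have h3 := alg_inj (h2.trans (map_zero (algebraMap ℂ[X] F)).symm)
    exact X_sub_C_ne_zero z h3
  set p : ℂ[X] := ∑ k : Fin w, C (c k) * (X - C z) ^ (w - 1 - (k : ℕ)) with hp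
  have h2 : p * b = (X - C z) ^ w * a := by
    apply alg_inj
    rw [map_mul, map_mul, map_pow, ← h1, hp, map_sum, ← hL, ← mul_assoc, Finset.mul_sum,
      Finset.sum_mul, Finset.sum_mul]
    refine Finset.sum_congr rfl fun k _ => ?_
    rw [map_mul, map_pow, ← hL]
    have h3 : L ^ w = L ^ (w - 1 - (k : ℕ)) * L ^ ((k : ℕ) + 1) := by
      rw [← pow_add]
      congr 1
      have := k.isLt
      omega
    rw [h3]
    field_simp
  have h3 : (X - C z) ^ w ∣ p := by
    have h4 : (X - C z) ^ w ∣ p * b := ⟨a, h2⟩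
    refine (IsCoprime.pow_left ?_).dvd_of_dvd_mul_right h4
    refine (Polynomial.irreducible_X_sub_C z).coprime_iff_not_dvd.2 ?_
    rw [dvd_iff_isRoot]
    exact hb
  have h4 : p = 0 := by
    rcases Nat.eq_zero_or_pos w with hw | hw
    · subst hw
      simp [hp]
    refine Polynomial.eq_zero_of_dvd_of_natDegree_lt h3 ?_
    rw [natDegree_pow, natDegree_X_sub_C, mul_one]
    refine lt_of_le_of_lt (natDegree_sum_le_of_forall_le (n := w - 1) _ _ fun k _ => ?_) (by omega)
    refine (natDegree_C_mul_le _ _).trans ?_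
    rw [natDegree_pow, natDegree_X_sub_C, mul_one]
    omega
  have h5 : p.comp (X + C z) = ∑ k : Fin w, C (c k) * X ^ (w - 1 - (k : ℕ)) := by
    rw [hp]
    change (Polynomial.compRingHom (X + C z)) (∑ k : Fin w, C (c k) * (X - C z) ^ (w - 1 - (k : ℕ))) = _
    rw [map_sum]
    refine Finset.sum_congr rfl fun k _ => ?_
    simp [coe_compRingHom_apply]
  funext k
  have h6 := congrArg (fun r : ℂ[X] => r.coeff (w - 1 - (k : ℕ))) h5
  rw [h4, zero_comp] at h6
  simp only [coeff_zero, finsetSum_coeff, coeff_C_mul, coeff_X_pow] at h6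
  rw [Finset.sum_eq_single k] at h6
  · simpa using h6.symm
  · intro k' _ hne
    rw [if_neg, mul_zero]
    intro h7
    apply hne
    apply Fin.ext
    have := k.isLt
    have := k'.isLt
    omega
  · intro h7
    exact absurd (Finset.mem_univ k) h7

/-- invariant rational functions are constant -/
theorem const_of_inv (c : F) (h : σF c = c) : ∃ c' : ℂ, c = algebraMap ℂ[X] F (C c') := by
  obtain ⟨a, b, hb, h1⟩ := exists_div c
  have h2 : pshift a * b = a * pshift b := by
    apply alg_inj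
    have h3 := congrArg σF h1
    rw [map_mul, σF_alg, σF_alg, h] at h3
    rw [map_mul, map_mul, ← h3, ← h1]
    ring
  -- far away
  obtain ⟨N, hN⟩ : ∃ N : ℕ, ∀ n : ℕ, N ≤ n → b.eval (n : ℂ) ≠ 0 := by
    have hfin : {n : ℕ | b.eval (n : ℂ) = 0}.Finite := by
      refine Set.Finite.of_finite_image (f := fun n : ℕ => (n : ℂ)) ?_ ?_
      · refine (b.roots.toFinset.finite_toSet).subset ?_
        rintro _ ⟨n, hn, rfl⟩
        simp only [Finset.mem_coe, Multiset.mem_toFinset]
        exact (mem_roots hb).2 hn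
      · intro n _ m _ hnm
        simpa using hnm
    obtain ⟨M, hM⟩ := hfin.bddAbove
    exact ⟨M + 1, fun n hn h3 => absurd (hM h3) (by omega)⟩
  set c' : ℂ := a.eval (N : ℂ) / b.eval (N : ℂ) with hc'
  have h3 : ∀ m : ℕ, a.eval ((N + m : ℕ) : ℂ) = c' * b.eval ((N + m : ℕ) : ℂ) := by
    intro m
    induction m with
    | zero =>
      rw [add_zero, hc', div_mul_cancel₀ _ (hN N le_rfl)]
    | succ m ih =>
      have h4 := congrArg (fun r : ℂ[X] => r.eval ((N + m : ℕ) : ℂ)) h2
      simp only [eval_mul, pshift_apply, eval_comp, eval_add, eval_X, eval_C] at h4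
      rw [ih] at h4
      have h5 := hN (N + m) (by omega)
      have h6 : ((N + (m + 1) : ℕ) : ℂ) = ((N + m : ℕ) : ℂ) + 1 := by push_cast; ring
      rw [h6]
      have h7 : (eval (((N + m : ℕ) : ℂ) + 1) a - c' * eval (((N + m : ℕ) : ℂ) + 1) b) *
          eval ((N + m : ℕ) : ℂ) b = 0 := by linear_combination h4
      rcases mul_eq_zero.1 h7 with h8 | h8
      · exact sub_eq_zero.1 h8
      · exact absurd h8 h5
  have h4 : a - C c' * b = 0 := by
    refine Polynomial.eq_zero_of_infinite_isRoot _ ?_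
    refine Set.Infinite.mono (s := Set.range fun m : ℕ => ((N + m : ℕ) : ℂ)) ?_ ?_
    · rintro _ ⟨m, rfl⟩
      have := h3 m
      simp only [Set.mem_ofPred_eq, IsRoot.def, eval_sub, eval_mul, eval_C]
      rw [this, sub_self]
    · refine Set.infinite_range_of_injective fun m m' hm => ?_
      have : ((N + m : ℕ)) = N + m' := by exact_mod_cast hm
      omega
  refine ⟨c', ?_⟩
  have hb1 : algebraMap ℂ[X] F b ≠ 0 := by
    intro h5
    exact hb (alg_inj (by rw [h5, map_zero]))
  have h5 : a = C c' * b := sub_eq_zero.1 h4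
  rw [h5, map_mul] at h1
  exact mul_right_cancel₀ hb1 h1

variable {ι : Type*} [Fintype ι]

/-- the increments of the Hurwitz zeta functions -/
noncomputable def gF {w : ℕ} (x : ι → ℂ) (s : Fin w → ℂ) (k : ι × Fin w) : F :=
  algebraMap ℂ[X] F (C (s k.2)) / algebraMap ℂ[X] F (X - C (-x k.1)) ^ ((k.2 : ℕ) + 1)

theorem reg_inv (z y : ℂ) (hz : z ≠ y) (n : ℕ) (v : F) (hv : Reg v z) :
    Reg (v / algebraMap ℂ[X] F (X - C y) ^ n) z := by
  have hL0 : algebraMap ℂ[X] F (X - C y) ≠ 0 := by
    intro h2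
    exact X_sub_C_ne_zero y (alg_inj (h2.trans (map_zero (algebraMap ℂ[X] F)).symm))
  rw [div_eq_mul_inv]
  refine hv.mul ⟨1, (X - C y) ^ n, ?_, ?_⟩
  · rw [eval_pow, eval_sub, eval_X, eval_C]
    exact pow_ne_zero _ (sub_ne_zero.2 hz)
  · rw [map_pow, inv_mul_cancel₀ (pow_ne_zero _ hL0), map_one]

/-- **The additive equations are non-degenerate.** -/
theorem nd_add {w : ℕ} (x : ι → ℂ) (hx : ∀ i j, i ≠ j → ∀ n : ℤ, x i ≠ x j + n) (s : Fin w → ℂ)
    (hs : ∀ k, s k ≠ 0) (c : ι × Fin w → F) (v : F) (hc : ∀ k, σF (c k) = c k)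
    (h : ∑ k, c k * gF x s k = σF v - v) : c = 0 := by
  classical
  choose c' hc' using fun k => const_of_inv (c k) (hc k)
  have hterm : ∀ k : ι × Fin w, c k * gF x s k = algebraMap ℂ[X] F (C (c' k * s k.2)) /
      algebraMap ℂ[X] F (X - C (-x k.1)) ^ ((k.2 : ℕ) + 1) := by
    intro k
    rw [hc' k, gF, C_mul, map_mul, mul_div_assoc]
  have hz : ∀ i, (fun k : Fin w => c' (i, k) * s k) = 0 := by
    intro i
    have hreg : Reg (σF v - v) (-x i) := by
      refine reg_all v (-x i) fun n hn => ?_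
      rw [← h]
      refine Reg.sum _ _ fun k _ => ?_
      rw [hterm]
      refine reg_inv _ _ ?_ _ _ (Reg.alg _ _)
      intro h1
      by_cases hk : k.1 = i
      · rw [hk] at h1
        have : (n : ℂ) = 0 := by linear_combination h1
        exact hn (by exact_mod_cast this)
      · exact hx i k.1 (Ne.symm hk) n (by linear_combination -h1)
    refine polar (-x i) w _ ?_
    rw [← h, Fintype.sum_prod_type, ← Finset.add_sum_erase _ _ (Finset.mem_univ i)] at hreg
    have h2 : Reg (∑ j ∈ Finset.univ.erase i, ∑ k : Fin w, c (j, k) * gF x s (j, k)) (-x i) := by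
      refine Reg.sum _ _ fun j hj => Reg.sum _ _ fun k _ => ?_
      rw [hterm]
      refine reg_inv _ _ ?_ _ _ (Reg.alg _ _)
      intro h1
      exact hx i j (Finset.ne_of_mem_erase hj).symm 0 (by push_cast; linear_combination -h1)
    have h3 := hreg.sub h2
    rw [add_sub_cancel_right] at h3
    convert h3 using 2
    rw [hterm]
  funext k
  have h1 := congrFun (hz k.1) k.2
  simp only [Pi.zero_apply, mul_eq_zero] at h1
  rcases h1 with h1 | h1
  · rw [hc' k, show c' k = 0 from h1, C_0, map_zero, Pi.zero_apply]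
  · exact absurd h1 (hs k.2)

/-- the factors of the Gamma functions -/
noncomputable def hF (x : ι → ℂ) (i : ι) : F := algebraMap ℂ[X] F (X - C (-x i))

omit [Fintype ι] in
theorem hF_ne (x : ι → ℂ) (i : ι) : hF x i ≠ 0 := by
  intro h2
  exact X_sub_C_ne_zero (-x i) (alg_inj (h2.trans (map_zero (algebraMap ℂ[X] F)).symm))

theorem rm_shift (p : ℂ[X]) (z : ℂ) : rootMultiplicity z (pshift p) = rootMultiplicity (z + 1) p := by
  rw [pshift_apply, rootMultiplicity_eq_rootMultiplicity (t := z),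
    rootMultiplicity_eq_rootMultiplicity (t := z + 1), comp_assoc]
  congr 2
  simp only [add_comp, X_comp, C_comp, C_add]
  ring

theorem lc_shift (p : ℂ[X]) : (pshift p).leadingCoeff = p.leadingCoeff := by
  rw [pshift_apply, leadingCoeff_comp (by rw [natDegree_X_add_C]; exact one_ne_zero),
    leadingCoeff_X_add_C, one_pow, mul_one]

/-- **The multiplicative equations are non-degenerate.** -/
theorem nd_mul (x : ι → ℂ) (hx : ∀ i j, i ≠ j → ∀ n : ℤ, x i ≠ x j + n) (a a' : ι →₀ ℕ) (e e' : ℂ)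
    (he : e ≠ 0) (he' : e' ≠ 0) (v : F) (hv : v ≠ 0)
    (h : algebraMap ℂ[X] F (C e) * (a.prod fun i n => hF x i ^ n) * σF v =
      algebraMap ℂ[X] F (C e') * (a'.prod fun i n => hF x i ^ n) * v) :
    a = a' ∧ e = e' := by
  classical
  obtain ⟨p, q, hq, h1⟩ := exists_div v
  have hp : p ≠ 0 := by
    intro hp
    rw [hp, map_zero] at h1
    rcases mul_eq_zero.1 h1 with h2 | h2
    · exact hv h2
    · exact hq (alg_inj (by rw [h2, map_zero]))
  set U : (ι →₀ ℕ) → ℂ[X] := fun a => ∏ i, (X - C (-x i)) ^ a i with hU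
  have hUF : ∀ a : ι →₀ ℕ, (a.prod fun i n => hF x i ^ n) = algebraMap ℂ[X] F (U a) := by
    intro a
    rw [Finsupp.prod_fintype _ _ (fun i => pow_zero _), hU, map_prod]
    exact Finset.prod_congr rfl fun i _ => by rw [map_pow]; rfl
  have hU0 : ∀ a, U a ≠ 0 := fun a =>
    Finset.prod_ne_zero_iff.2 fun i _ => pow_ne_zero _ (X_sub_C_ne_zero _)
  have h2 : C e * U a * pshift p * q = C e' * U a' * p * pshift q := by
    apply alg_inj
    have h3 := congrArg σF h1
    rw [map_mul, σF_alg, σF_alg] at h3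
    simp only [map_mul]
    rw [← h3, ← h1, ← hUF, ← hUF]
    linear_combination (algebraMap ℂ[X] F (pshift q) * algebraMap ℂ[X] F q) * h
  have hsp : pshift p ≠ 0 := fun h3 => hp (pshift_inj (by rw [h3, map_zero]))
  have hsq : pshift q ≠ 0 := fun h3 => hq (pshift_inj (by rw [h3, map_zero]))
  have hCe : (C e : ℂ[X]) ≠ 0 := C_ne_zero.2 he
  have hCe' : (C e' : ℂ[X]) ≠ 0 := C_ne_zero.2 he'
  refine ⟨?_, ?_⟩
  swap
  · have hmon : ∀ a, (U a).leadingCoeff = 1 := fun a =>
      (monic_prod_of_monic _ _ fun i _ => (monic_X_sub_C _).pow _)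
    have h3 := congrArg leadingCoeff h2
    simp only [leadingCoeff_mul, leadingCoeff_C, hmon, lc_shift, mul_one] at h3
    have h4 : (e - e') * (p.leadingCoeff * q.leadingCoeff) = 0 := by linear_combination h3
    rcases mul_eq_zero.1 h4 with h5 | h5
    · exact sub_eq_zero.1 h5
    · exact absurd h5 (mul_ne_zero (leadingCoeff_ne_zero.2 hp) (leadingCoeff_ne_zero.2 hq))
  ext i
  -- multiplicities along the orbit of `-x i`
  have hUm : ∀ (a : ι →₀ ℕ) (n : ℤ), rootMultiplicity (-x i + n) (U a) = if n = 0 then a i else 0 := by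
    intro a n
    have h3 : ∀ (s : Finset ι), rootMultiplicity (-x i + n) (∏ j ∈ s, (X - C (-x j)) ^ a j) =
        ∑ j ∈ s, if -x i + n = -x j then a j else 0 := by
      intro s
      induction s using Finset.induction_on with
      | empty => simp
      | insert j s hj ih =>
        rw [Finset.prod_insert hj, Finset.sum_insert hj, rootMultiplicity_mul, ih]
        · congr 1
          split_ifs with h4
          · rw [h4, rootMultiplicity_X_sub_C_pow]
          · rw [rootMultiplicity_eq_zero]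
            rw [IsRoot.def, eval_pow, eval_sub, eval_X, eval_C]
            exact pow_ne_zero _ (sub_ne_zero.2 h4)
        · exact mul_ne_zero (pow_ne_zero _ (X_sub_C_ne_zero _))
            (Finset.prod_ne_zero_iff.2 fun k _ => pow_ne_zero _ (X_sub_C_ne_zero _))
    rw [hU]
    simp only
    rw [h3 Finset.univ, Finset.sum_eq_single i]
    · by_cases hn : n = 0
      · subst hn
        simp
      · rw [if_neg, if_neg hn]
        intro h4
        have : (n : ℂ) = 0 := by linear_combination h4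
        exact hn (by exact_mod_cast this)
    · intro j _ hne
      rw [if_neg]
      intro h4
      exact hx i j hne.symm n (by linear_combination -h4)
    · intro h4
      exact absurd (Finset.mem_univ i) h4
  set f : ℤ → ℤ := fun n => (rootMultiplicity (-x i + n) p : ℤ) - rootMultiplicity (-x i + n) q
    with hf
  have hrel : ∀ n : ℤ, (if n = 0 then (a i : ℤ) else 0) + f (n + 1) =
      (if n = 0 then (a' i : ℤ) else 0) + f n := by
    intro n
    have h3 := congrArg (rootMultiplicity (-x i + (n : ℂ))) h2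
    rw [rootMultiplicity_mul (mul_ne_zero (mul_ne_zero (mul_ne_zero hCe (hU0 a)) hsp) hq),
      rootMultiplicity_mul (mul_ne_zero (mul_ne_zero hCe (hU0 a)) hsp),
      rootMultiplicity_mul (mul_ne_zero hCe (hU0 a)),
      rootMultiplicity_mul (mul_ne_zero (mul_ne_zero (mul_ne_zero hCe' (hU0 a')) hp) hsq),
      rootMultiplicity_mul (mul_ne_zero (mul_ne_zero hCe' (hU0 a')) hp),
      rootMultiplicity_mul (mul_ne_zero hCe' (hU0 a')), rootMultiplicity_C, rootMultiplicity_C,
      hUm, hUm, rm_shift, rm_shift, zero_add, zero_add] at h3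
    have h4 : (-x i + (n : ℂ)) + 1 = -x i + ((n + 1 : ℤ) : ℂ) := by push_cast; ring
    rw [h4] at h3
    simp only [hf]
    split_ifs at h3 ⊢ <;> omega
  have hfar : ∃ N : ℕ, ∀ n : ℤ, (N : ℤ) ≤ |n| → f n = 0 := by
    have key : ∀ r : ℂ[X], r ≠ 0 → ∃ N : ℕ, ∀ n : ℤ, (N : ℤ) ≤ |n| →
        rootMultiplicity (-x i + n) r = 0 := by
      intro r hr
      have hfin : {n : ℤ | r.eval (-x i + n) = 0}.Finite := by
        refine Set.Finite.of_finite_image (f := fun n : ℤ => -x i + (n : ℂ)) ?_ ?_
        · refine (r.roots.toFinset.finite_toSet).subset ?_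
          rintro _ ⟨n, hn, rfl⟩
          simp only [Finset.mem_coe, Multiset.mem_toFinset]
          exact (mem_roots hr).2 hn
        · intro n _ m _ hnm
          simpa using hnm
      obtain ⟨M, hM⟩ := (hfin.image fun n => |n|).bddAbove
      refine ⟨M.toNat + 1, fun n hn => ?_⟩
      rw [rootMultiplicity_eq_zero]
      intro h3
      have h4 : |n| ≤ M := hM ⟨n, h3, rfl⟩
      have := Int.self_le_toNat M
      push_cast at hn
      omega
    obtain ⟨N1, h5⟩ := key p hp
    obtain ⟨N2, h6⟩ := key q hq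
    refine ⟨max N1 N2, fun n hn => ?_⟩
    push_cast at hn
    simp only [hf]
    rw [h5 n (by omega), h6 n (by omega)]
    simp
  obtain ⟨N, hN⟩ := hfar
  have hsum : ∑ m ∈ Finset.range (2 * N + 1), (f (-(N : ℤ) + (m + 1 : ℕ)) - f (-(N : ℤ) + m)) =
      f (-(N : ℤ) + (2 * N + 1 : ℕ)) - f (-(N : ℤ) + (0 : ℕ)) :=
    Finset.sum_range_sub (fun m : ℕ => f (-(N : ℤ) + m)) (2 * N + 1)
  rw [hN _ (by push_cast; rw [abs_of_nonneg] <;> omega),
    hN (-(N : ℤ) + (0 : ℕ)) (by push_cast; rw [add_zero, abs_neg, abs_of_nonneg] <;> omega)] at hsum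
  have hval : ∀ m ∈ Finset.range (2 * N + 1), f (-(N : ℤ) + (m + 1 : ℕ)) - f (-(N : ℤ) + m) =
      if m = N then (a' i : ℤ) - a i else 0 := by
    intro m _
    have h3 := hrel (-(N : ℤ) + m)
    have h4 : -(N : ℤ) + m + 1 = -(N : ℤ) + (m + 1 : ℕ) := by push_cast; ring
    rw [h4] at h3
    by_cases hm : m = N
    · rw [if_pos hm]
      rw [if_pos (by omega), if_pos (by omega)] at h3
      linarith
    · rw [if_neg hm]
      rw [if_neg (by omega), if_neg (by omega)] at h3
      linarith
  rw [Finset.sum_congr rfl hval, Finset.sum_ite_eq' (Finset.range (2 * N + 1)) N,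
    if_pos (Finset.mem_range.2 (by omega))] at hsum
  omega

end Pool.Agent.Y294.OS
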